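import Pool.Agent.Run7.h632.CA.Defs

/-!
# The action on the abelianization
-/

set_option autoImplicit false

namespace Run7.h817.CA

open Pool.Agent.Run7.h632.CA

section

variable {n : ℕ}

/-- the exponent sums -/
noncomputable def ab (n : ℕ) : F n →* Multiplicative (Fin n → ℤ) :=
  FreeGroup.lift (fun i => Multiplicative.ofAdd (Pi.single i (1 : ℤ)))

theorem ab_of (i : Fin n) : ab n (FreeGroup.of i) = Multiplicative.ofAdd (Pi.single i (1 : ℤ)) := by
  simp [ab]

/-- the exponent sums, additively -/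
noncomputable def es (g : F n) : Fin n → ℤ := Multiplicative.toAdd (ab n g)

theorem es_mul (g h : F n) : es (g * h) = es g + es h := by
  simp [es]

theorem es_inv (g : F n) : es g⁻¹ = - es g := by
  simp [es]

theorem es_one : es (1 : F n) = 0 := by
  simp [es]

theorem es_of (i : Fin n) : es (FreeGroup.of i) = Pi.single i (1 : ℤ) := by
  simp [es, ab_of]

/-- the matrix of an endomorphism -/
noncomputable def M (φ : F n →* F n) : Matrix (Fin n) (Fin n) ℤ :=
  Matrix.of fun i j => es (φ (FreeGroup.of j)) i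

theorem es_map (φ : F n →* F n) (g : F n) : es (φ g) = (M φ).mulVec (es g) := by
  let f1 : F n →* Multiplicative (Fin n → ℤ) := (ab n).comp φ
  let f2 : F n →* Multiplicative (Fin n → ℤ) :=
    (AddMonoidHom.toMultiplicative (Matrix.mulVecLin (M φ)).toAddMonoidHom).comp (ab n)
  have h : f1 = f2 := by
    apply FreeGroup.ext_hom
    intro j
    apply Multiplicative.toAdd.injective
    funext i
    show es (φ (FreeGroup.of j)) i = (M φ).mulVec (es (FreeGroup.of j)) i
    rw [es_of, Matrix.mulVec_single_one]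
    rfl
  have h2 := DFunLike.congr_fun h g
  exact congrArg Multiplicative.toAdd h2

theorem M_comp (φ ψ : F n →* F n) : M (φ.comp ψ) = M φ * M ψ := by
  ext i j
  have h := congrFun (es_map φ (ψ (FreeGroup.of j))) i
  show es (φ (ψ (FreeGroup.of j))) i = _
  rw [h]
  rfl

theorem M_id : M (MonoidHom.id (F n)) = 1 := by
  ext i j
  show es (FreeGroup.of j) i = _
  rw [es_of, Matrix.one_apply, Pi.single_apply]

/-- the matrix of an automorphism -/
noncomputable def Mhom (n : ℕ) : MulAut (F n) →* Matrix (Fin n) (Fin n) ℤ where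
  toFun φ := M (φ : F n ≃* F n).toMonoidHom
  map_one' := M_id
  map_mul' φ ψ := by
    rw [← M_comp]
    rfl

/-- the map to `GL_n (ℤ)` -/
noncomputable def θ (n : ℕ) : MulAut (F n) →* Matrix.GeneralLinearGroup (Fin n) ℤ :=
  (Mhom n).toHomUnits

theorem θ_apply (φ : MulAut (F n)) (i j : Fin n) :
    (θ n φ : Matrix (Fin n) (Fin n) ℤ) i j = es (φ (FreeGroup.of j)) i := by
  rw [θ, MonoidHom.coe_toHomUnits]
  rfl

theorem es_θ (φ : MulAut (F n)) (g : F n) :
    es (φ g) = (θ n φ : Matrix (Fin n) (Fin n) ℤ).mulVec (es g) := by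
  have h := es_map (φ : F n ≃* F n).toMonoidHom g
  rw [θ, MonoidHom.coe_toHomUnits]
  exact h

theorem θ_inn {φ : MulAut (F n)} (h : φ ∈ Inn (F n)) : θ n φ = 1 := by
  obtain ⟨w, rfl⟩ := h
  apply Units.ext
  ext i j
  rw [θ_apply, MulAut.conj_apply, es_mul, es_mul, es_inv, es_of, Units.val_one, Matrix.one_apply,
    Pi.add_apply, Pi.add_apply, Pi.neg_apply, Pi.single_apply]
  ring

theorem mem_commutator_of_es {g : F n} (h : es g = 0) : g ∈ commutator (F n) := by
  let ψ : Multiplicative (Fin n → ℤ) →* Abelianization (F n) :=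
    { toFun := fun v => ∏ i, (Abelianization.of (FreeGroup.of i)) ^ (Multiplicative.toAdd v i)
      map_one' := by simp
      map_mul' := fun v w => by
        simp only [toAdd_mul, Pi.add_apply, zpow_add, Finset.prod_mul_distrib] }
  have hc : ψ.comp (ab n) = Abelianization.of := by
    apply FreeGroup.ext_hom
    intro j
    show ∏ i, (Abelianization.of (FreeGroup.of i)) ^ (es (FreeGroup.of j) i) = _
    rw [es_of, Finset.prod_eq_single j]
    · simp
    · intro b _ hb
      rw [Pi.single_eq_of_ne hb, zpow_zero]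
    · simp
  have h1 : (Abelianization.of g : Abelianization (F n)) = 1 := by
    rw [← hc]
    show ψ (ab n g) = 1
    have : ab n g = 1 := Multiplicative.toAdd.injective h
    rw [this, map_one]
  exact (QuotientGroup.eq_one_iff _).1 h1

/-- all exponent sums are divisible by `m` -/
noncomputable def Kr (n m : ℕ) : Subgroup (F n) :=
  ((AddMonoidHom.toMultiplicative
    ((Int.castAddHom (ZMod m)).compLeft (Fin n))).comp (ab n)).ker

theorem mem_Kr {m : ℕ} {g : F n} : g ∈ Kr n m ↔ ∀ i, (m : ℤ) ∣ es g i := by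
  unfold Kr
  rw [MonoidHom.mem_ker]
  constructor
  · intro h i
    have h1 := congrFun (congrArg Multiplicative.toAdd h) i
    exact (ZMod.intCast_zmod_eq_zero_iff_dvd _ _).1 h1
  · intro h
    apply Multiplicative.toAdd.injective
    funext i
    exact (ZMod.intCast_zmod_eq_zero_iff_dvd _ _).2 (h i)

theorem Kr_char (n m : ℕ) : (Kr n m).Characteristic := by
  rw [Subgroup.characteristic_iff_le_comap]
  intro φ g hg
  rw [Subgroup.mem_comap]
  rw [mem_Kr] at hg ⊢
  intro i
  have h1 : es (φ g) = (θ n φ : Matrix (Fin n) (Fin n) ℤ).mulVec (es g) := es_θ φ g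
  show (m : ℤ) ∣ es (φ g) i
  rw [h1]
  show (m : ℤ) ∣ ∑ j, (θ n φ : Matrix (Fin n) (Fin n) ℤ) i j * es g j
  exact Finset.dvd_sum fun j _ => Dvd.dvd.mul_left (hg j) _

theorem Kr_fin {m : ℕ} (hm : 1 ≤ m) : (Kr n m).FiniteIndex := by
  have : NeZero m := ⟨by omega⟩
  have : Finite (Multiplicative (Fin n → ZMod m)) := inferInstanceAs (Finite (Fin n → ZMod m))
  unfold Kr
  exact Subgroup.finiteIndex_ker _

end

theorem t_abel (h_mat : S_mat) : S_abel := by
  intro n A hA V hV hker
  let τ : A →* Matrix.GeneralLinearGroup (Fin n) ℤ := (θ n).comp A.subtype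
  have hcomm : ∀ a ∈ τ.range, ∀ b ∈ τ.range, a * b = b * a := by
    rintro _ ⟨a, rfl⟩ _ ⟨b, rfl⟩
    have h1 := θ_inn (hA a.1 a.2 b.1 b.2)
    rw [map_mul, map_mul, map_mul, map_inv, map_inv] at h1
    have h2 : θ n a.1 * θ n b.1 = θ n b.1 * θ n a.1 := by
      rw [mul_inv_eq_one, mul_inv_eq_iff_eq_mul] at h1
      exact h1
    exact h2
  have hfin : FinIn (V.map τ) τ.range := by
    refine ⟨?_, ?_⟩
    · rintro _ ⟨v, -, rfl⟩
      exact ⟨v, rfl⟩
    · rw [← Subgroup.index_comap]
      have : ((V.map τ).comap τ).FiniteIndex := Subgroup.finiteIndex_of_le (Subgroup.le_comap_map τ V)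
      exact this.index_ne_zero
  obtain ⟨m, hm, h⟩ := h_mat n τ.range (V.map τ) hcomm hfin
  refine ⟨Kr n m, Kr_char n m, Kr_fin hm, fun a ha => ?_⟩
  have h1 : τ a ∈ V.map τ := by
    refine h (τ a) ⟨a, rfl⟩ fun i j => ?_
    have h2 := mem_Kr.1 (ha (FreeGroup.of j)) i
    rw [es_mul, es_inv, es_of] at h2
    have h3 : ((τ a : Matrix (Fin n) (Fin n) ℤ) - 1) i j =
        es (a.1 (FreeGroup.of j)) i + -(Pi.single j (1 : ℤ) : Fin n → ℤ) i := by
      rw [Matrix.sub_apply, Matrix.one_apply, Pi.single_apply, ← sub_eq_add_neg]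
      rw [show (τ a : Matrix (Fin n) (Fin n) ℤ) i j = es (a.1 (FreeGroup.of j)) i from
        θ_apply a.1 i j]
    rw [h3]
    exact h2
  obtain ⟨v, hv, hva⟩ := h1
  have h4 : v⁻¹ * a ∈ V := by
    apply hker
    intro x
    apply mem_commutator_of_es
    have h5 : θ n (v⁻¹ * a : A).1 = 1 := by
      show τ (v⁻¹ * a) = 1
      rw [map_mul, map_inv, hva, inv_mul_cancel]
    rw [es_mul, es_inv, es_θ, h5, Units.val_one, Matrix.one_mulVec, add_neg_cancel]
  have h6 := V.mul_mem hv h4
  rwa [mul_inv_cancel_left] at h6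

end Run7.h817.CA
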