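import Pool.Agent.Run7.h632.CA.Defs
import Pool.Agent.N66.TJ.Main

/-!
# The congruence subgroup property of abelian subgroups of `Out (F_n)`
-/

set_option autoImplicit false

namespace Run7.h817.CA

open Pool.Agent.Run7.h632.CA

theorem t_csp (h_abel : S_abel) (h_stab : S_stab) (h_low : S_low) : S_csp := by
  intro n hn A hinn hfg hcomm V hVinn hV
  obtain ⟨c, hc⟩ := h_stab n hn A hinn hfg hcomm
  obtain ⟨K, hK1, hK2, hK3⟩ := Pool.Agent.N66.TJ.outer_general A (fun x => hinn ⟨x, rfl⟩)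
    (⊤ : Subgroup (F n))
    (fun V' hV' hle => h_abel n A hcomm V' hV' (fun a ha => hle a
      ⟨fun x => Subgroup.mem_top _, fun x _ => ha x⟩)) c (V.subgroupOf A) ⟨hV.2⟩
    (fun a ha => by
      show a.1 ∈ V
      exact hVinn (hc a.1 a.2 (h_low n c a.1 ha)))
  exact ⟨K, hK1, hK2, fun a ha hin => hK3 ⟨a, ha⟩ hin⟩

end Run7.h817.CA
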