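import Pool.Agent.Run7.h632.CA.Defs

/-!
# Abelian subgroups of `GL_n (ℤ)`
-/

set_option autoImplicit false

namespace Run7.h817.CA

open Pool.Agent.Run7.h632.CA

section

variable {n : ℕ}

/-- the matrices of the elements of `B` -/
def matS (B : Subgroup (Matrix.GeneralLinearGroup (Fin n) ℤ)) : Set (Matrix (Fin n) (Fin n) ℤ) :=
  {x | ∃ b ∈ B, (b : Matrix (Fin n) (Fin n) ℤ) = x}

/-- the double centraliser -/
def dc (B : Subgroup (Matrix.GeneralLinearGroup (Fin n) ℤ)) : Subring (Matrix (Fin n) (Fin n) ℤ) :=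
  Subring.centralizer ((Subring.centralizer (matS B) : Subring (Matrix (Fin n) (Fin n) ℤ)) :
    Set (Matrix (Fin n) (Fin n) ℤ))

theorem mem_dc {B : Subgroup (Matrix.GeneralLinearGroup (Fin n) ℤ)} {x : Matrix (Fin n) (Fin n) ℤ} :
    x ∈ dc B ↔ ∀ c, (∀ b ∈ B, (b : Matrix (Fin n) (Fin n) ℤ) * c = c * b) → c * x = x * c := by
  unfold dc
  rw [Subring.mem_centralizer_iff]
  constructor
  · intro h c hc
    apply h c
    rw [SetLike.mem_coe, Subring.mem_centralizer_iff]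
    rintro _ ⟨b, hb, rfl⟩
    exact hc b hb
  · intro h c hc
    apply h c
    rw [SetLike.mem_coe, Subring.mem_centralizer_iff] at hc
    intro b hb
    exact hc _ ⟨b, hb, rfl⟩

theorem coe_mem_dc {B : Subgroup (Matrix.GeneralLinearGroup (Fin n) ℤ)}
    {b : Matrix.GeneralLinearGroup (Fin n) ℤ} (hb : b ∈ B) :
    (b : Matrix (Fin n) (Fin n) ℤ) ∈ dc B := by
  rw [mem_dc]
  intro c hc
  exact (hc b hb).symm

theorem dc_comm {B : Subgroup (Matrix.GeneralLinearGroup (Fin n) ℤ)}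
    (hB : ∀ a ∈ B, ∀ b ∈ B, a * b = b * a) {x y : Matrix (Fin n) (Fin n) ℤ}
    (hx : x ∈ dc B) (hy : y ∈ dc B) : x * y = y * x := by
  rw [mem_dc] at hx hy
  apply hy
  intro b hb
  apply hx
  intro c hc
  have := congrArg (fun u : Matrix.GeneralLinearGroup (Fin n) ℤ => (u : Matrix (Fin n) (Fin n) ℤ))
    (hB c hc b hb)
  exact this

/-- the double centraliser of a commutative subgroup is a commutative ring -/
@[reducible] def dcComm {B : Subgroup (Matrix.GeneralLinearGroup (Fin n) ℤ)}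
    (hB : ∀ a ∈ B, ∀ b ∈ B, a * b = b * a) : CommRing (dc B) :=
  { (inferInstance : Ring (dc B)) with
    mul_comm := fun x y => Subtype.ext (dc_comm hB x.2 y.2) }

theorem dc_div {B : Subgroup (Matrix.GeneralLinearGroup (Fin n) ℤ)} {m : ℕ} (hm : 1 ≤ m)
    {x : Matrix (Fin n) (Fin n) ℤ} (hx : (m : Matrix (Fin n) (Fin n) ℤ) * x ∈ dc B) : x ∈ dc B := by
  rw [mem_dc] at hx ⊢
  intro c hc
  have h1 := hx c hc
  have h2 : (m : ℕ) • (c * x) = (m : ℕ) • (x * c) := by
    rw [nsmul_eq_mul, nsmul_eq_mul, ← mul_assoc, ← mul_assoc, ← h1, Nat.cast_comm, mul_assoc]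
  ext i j
  have h3 := congrFun (congrFun h2 i) j
  simp only [Matrix.smul_apply, nsmul_eq_mul] at h3
  exact mul_left_cancel₀ (by exact_mod_cast (by omega : m ≠ 0)) h3

end

theorem t_mat (h_units : S_units) : S_mat := by
  intro n B V hcomm hFin
  let _ : CommRing (dc B) := dcComm hcomm
  have hfin : Module.Finite ℤ (dc B) :=
    Module.Finite.of_injective ((dc B).subtype.toIntAlgHom.toLinearMap) Subtype.val_injective
  have htf : Module.IsTorsionFree ℤ (dc B) :=
    Function.Injective.moduleIsTorsionFree (N := Matrix (Fin n) (Fin n) ℤ) (fun x => (x : Matrix (Fin n) (Fin n) ℤ))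
      Subtype.val_injective (fun r m => rfl)
  let j : (dc B)ˣ →* Matrix.GeneralLinearGroup (Fin n) ℤ :=
    Units.map ((dc B).subtype : dc B →* Matrix (Fin n) (Fin n) ℤ)
  obtain ⟨m, hm, h⟩ := h_units (dc B) (B.comap j) (V.comap j) ⟨Subgroup.comap_mono hFin.1, by
    rw [Subgroup.relIndex_comap]
    intro h0
    exact hFin.2 (Subgroup.relIndex_eq_zero_of_le_right (Subgroup.map_comap_le j B) h0)⟩
  refine ⟨m, hm, fun b hb hdvd => ?_⟩
  let b' : (dc B)ˣ := ⟨⟨(b : Matrix (Fin n) (Fin n) ℤ), coe_mem_dc hb⟩,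
    ⟨((b⁻¹ : Matrix.GeneralLinearGroup (Fin n) ℤ) : Matrix (Fin n) (Fin n) ℤ),
      coe_mem_dc (B.inv_mem hb)⟩,
    Subtype.ext (Units.mul_inv b), Subtype.ext (Units.inv_mul b)⟩
  have hjb : j b' = b := Units.ext rfl
  have hb'B : b' ∈ B.comap j := by
    show j b' ∈ B
    rw [hjb]
    exact hb
  have h1 := h b' hb'B (by
    choose x hx using hdvd
    have hx' : (b : Matrix (Fin n) (Fin n) ℤ) - 1 = (m : Matrix (Fin n) (Fin n) ℤ) * Matrix.of x := by
      rw [← nsmul_eq_mul]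
      ext i k
      rw [hx i k, Matrix.smul_apply, nsmul_eq_mul, Matrix.of_apply]
    have hxm : (Matrix.of x : Matrix (Fin n) (Fin n) ℤ) ∈ dc B := by
      apply dc_div hm
      rw [← hx']
      exact (dc B).sub_mem (coe_mem_dc hb) (dc B).one_mem
    refine ⟨⟨Matrix.of x, hxm⟩, Subtype.ext ?_⟩
    exact hx')
  have h2 : j b' ∈ V := h1
  rwa [hjb] at h2

end Run7.h817.CA
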