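import Pool.Agent.Run7.h632.CA.Defs

/-!
# The semisimple part
-/

set_option autoImplicit false

namespace Run7.h817.CA

open Pool.Agent.Run7.h632.CA

theorem pow_mem_of_finIn {G : Type} [CommGroup G] {V B : Subgroup G} (h : FinIn V B) :
    ∃ e : ℕ, 0 < e ∧ ∀ b ∈ B, b ^ e ∈ V := by
  refine ⟨V.relIndex B, Nat.pos_of_ne_zero h.2, fun b hb => ?_⟩
  have h1 := (V.subgroupOf B).pow_index_mem ⟨b, hb⟩
  exact h1

theorem t_semis (h_artin : S_artin) (h_chev : S_chev) (h_homs : S_homs) : S_semis := by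
  intro R _ _ _ B V hFin hnil
  obtain ⟨L, _, _, r, f, hf⟩ := h_homs R
  obtain ⟨e, he, hpow⟩ := pow_mem_of_finIn hFin
  have : Group.FG (NumberField.RingOfIntegers L)ˣ := Group.fg_iff_monoid_fg.2 inferInstance
  let φ : Rˣ →* (Fin r → (NumberField.RingOfIntegers L)ˣ) :=
    MonoidHom.pi fun i => Units.map (f i : R →* NumberField.RingOfIntegers L)
  obtain ⟨e', he', hart⟩ := h_artin (Fin r → (NumberField.RingOfIntegers L)ˣ) (B.map φ) e he
  obtain ⟨m, hm, hchev⟩ := h_chev L e' he'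
  refine ⟨m, hm, fun b hb hdvd => ?_⟩
  have h1 : ∀ i, ∃ w : (NumberField.RingOfIntegers L)ˣ,
      w ^ e' = Units.map (f i : R →* NumberField.RingOfIntegers L) b := by
    intro i
    apply hchev
    have := map_dvd (f i) hdvd
    simpa using this
  choose w hw using h1
  have hwφ : w ^ e' = φ b := by
    funext i
    exact hw i
  obtain ⟨y, ⟨c, hc, rfl⟩, hy⟩ := hart w (by rw [hwφ]; exact ⟨b, hb, rfl⟩)
  have hd : φ (b * (c ^ e)⁻¹) = 1 := by
    rw [map_mul, map_inv, map_pow, hy, hwφ, mul_inv_cancel]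
  have hdB : b * (c ^ e)⁻¹ ∈ B := B.mul_mem hb (B.inv_mem (B.pow_mem hc _))
  have hdV : b * (c ^ e)⁻¹ ∈ V := by
    apply hnil _ hdB
    apply hf
    intro i
    have h2 := congrFun hd i
    have h3 : f i ((b * (c ^ e)⁻¹ : Rˣ) : R) = 1 := by
      have := congrArg (fun u : (NumberField.RingOfIntegers L)ˣ => (u : NumberField.RingOfIntegers L)) h2
      exact this
    rw [map_sub, h3, map_one, sub_self]
  have := V.mul_mem hdV (hpow c hc)
  rwa [inv_mul_cancel_right] at this

end Run7.h817.CA
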