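import Pool.Agent.Run7.h632.CA.Defs

/-!
# Units of finite commutative rings
-/

set_option autoImplicit false

namespace Run7.h817.CA

open Pool.Agent.Run7.h632.CA

section

variable {R : Type} [CommRing R]

/-- the units congruent to `1` modulo an ideal -/
def cg (I : Ideal R) : Subgroup Rˣ := (Units.map (Ideal.Quotient.mk I : R →* R ⧸ I)).ker

theorem mem_cg {I : Ideal R} {b : Rˣ} : b ∈ cg I ↔ (b : R) - 1 ∈ I := by
  unfold cg
  rw [MonoidHom.mem_ker, Units.ext_iff, Units.coe_map, Units.val_one, ← Ideal.Quotient.mk_eq_mk_iff_sub_mem]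
  rw [map_one]
  exact Iff.rfl

theorem mem_cg_span {m : ℕ} {b : Rˣ} : b ∈ cg (Ideal.span {(m : R)}) ↔ (m : R) ∣ (b : R) - 1 := by
  rw [mem_cg, Ideal.mem_span_singleton]

theorem finite_quot [Module.Finite ℤ R] {m : ℕ} (hm : 1 ≤ m) :
    Finite (R ⧸ Ideal.span {(m : R)}) := by
  have h1 : Module.Finite ℤ (R ⧸ Ideal.span {(m : R)}) :=
    Module.Finite.of_surjective
      ((Ideal.Quotient.mk (Ideal.span {(m : R)})).toIntAlgHom.toLinearMap) Ideal.Quotient.mk_surjective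
  apply Module.finite_of_fg_torsion
  intro x
  obtain ⟨y, rfl⟩ := Ideal.Quotient.mk_surjective x
  refine ⟨⟨(m : ℤ), ?_⟩, ?_⟩
  · rw [mem_nonZeroDivisors_iff_ne_zero]
    exact_mod_cast (by omega : m ≠ 0)
  · show (m : ℤ) • (Ideal.Quotient.mk (Ideal.span {(m : R)})) y = 0
    rw [natCast_zsmul, nsmul_eq_mul, ← map_natCast (Ideal.Quotient.mk (Ideal.span {(m : R)})),
      ← map_mul, Ideal.Quotient.eq_zero_iff_mem]
    exact Ideal.mul_mem_right _ _ (Ideal.mem_span_singleton_self _)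

theorem cg_relIndex [Module.Finite ℤ R] {m : ℕ} (hm : 1 ≤ m) (B : Subgroup Rˣ) :
    (cg (Ideal.span {(m : R)})).relIndex B ≠ 0 := by
  have := finite_quot (R := R) hm
  have h1 : (cg (Ideal.span {(m : R)})).FiniteIndex := by
    unfold cg
    exact Subgroup.finiteIndex_ker _
  have h2 : (cg (Ideal.span {(m : R)})).index ≠ 0 := h1.index_ne_zero
  intro h3
  apply h2
  have h4 := Subgroup.relIndex_eq_zero_of_le_right (H := cg (Ideal.span {(m : R)})) (K := B)
    (L := ⊤) le_top h3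
  rwa [Subgroup.relIndex_top_right] at h4

end

theorem t_units (h_semis : S_semis) (h_unip : S_unip) : S_units := by
  intro R _ _ _ B V hFin
  obtain ⟨m₁, hm₁, hu⟩ := h_unip R B V hFin
  have hVB := hFin.1
  obtain ⟨m₂, hm₂, hs⟩ := h_semis R B ((V ⊓ cg (Ideal.span {(m₁ : R)})) ⊔ (B ⊓ cg (nilradical R)))
    ⟨sup_le (inf_le_left.trans hVB) inf_le_left, by
      intro h0
      have h1 := Subgroup.relIndex_eq_zero_of_le_left (L := B)
        (le_sup_left : V ⊓ cg (Ideal.span {(m₁ : R)}) ≤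
          (V ⊓ cg (Ideal.span {(m₁ : R)})) ⊔ (B ⊓ cg (nilradical R))) h0
      exact Subgroup.relIndex_inf_ne_zero hFin.2 (cg_relIndex hm₁ B) h1⟩
    (by
      intro b hb hn
      refine Subgroup.mem_sup_right ⟨hb, ?_⟩
      exact mem_cg.2 hn)
  refine ⟨m₁ * m₂, Nat.mul_pos hm₁ hm₂, fun b hb hdvd => ?_⟩
  rw [Nat.cast_mul] at hdvd
  have h1 : (m₁ : R) ∣ (b : R) - 1 := (dvd_mul_right _ _).trans hdvd
  have h2 : (m₂ : R) ∣ (b : R) - 1 := (dvd_mul_left _ _).trans hdvd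
  obtain ⟨v, hv, u, hu', rfl⟩ := Subgroup.mem_sup.1 (hs b hb h2)
  refine V.mul_mem hv.1 ?_
  refine hu u hu'.1 (mem_cg.1 hu'.2) ?_
  rw [← mem_cg_span] at h1 ⊢
  exact (Subgroup.mul_mem_cancel_left _ hv.2).1 h1

end Run7.h817.CA
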